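import Pool.Agent.AT6.Stmts1
import Pool.Agent.Helper98_AT3.Fxs
import Pool.Agent.Helper56_AT3.SMG
import Pool.Agent.Helper62_AT3.CO2

/-!
# Squad AT6, row SMH: the second main theorem for class functions
-/

open scoped BigOperators

set_option linter.unusedSectionVars false

noncomputable section

namespace Pool.Agent.PP.T6.H16

open Pool.Agent.Helper51_AWC Pool.Agent.Helper79_WRA Pool.Agent.PP Pool.Agent.PP.KF
open Pool.Agent.PP.K9 Pool.Agent.PP.K9.H97 Pool.Agent.PP.H75 Pool.Agent.PP.T3 Pool.Agent.PP.T2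
open Pool.Agent.PP.KF.H92

attribute [local instance] Ideal.Quotient.field

section base

variable {M : Ideal (integralClosure ℤ ℂ)} [M.IsMaximal] {G : Type} [Group G] [Finite G]

/-- the value of an irreducible character at `z ê` -/
theorem fv_eh (e : G → FF M) {χ : G → ℂ} (hχ : χ ∈ Irr G) (z : G) :
    (χ ∈ IrrE M e → T8.fv (eh M e) z χ = χ z) ∧ (χ ∉ IrrE M e → T8.fv (eh M e) z χ = 0) := by
  classical
  have := Fintype.ofFinite G
  have h1 : T8.fv (eh M e) z χ = H50.om (eh M e) χ * χ z := by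
    unfold T8.fv
    rw [finsum_eq_sum_of_fintype, ← H50.eigen (KF.H25.eh_cl e) hχ z]
    refine Finset.sum_congr rfl fun t _ => ?_
    congr 1
    have h2 := irr_conj hχ (g := t * z) (h := z)
    rw [← h2]
    congr 1
    group
  constructor
  · intro h
    rw [h1, (KF.H25.eh_om e hχ).1 h, one_mul]
  · intro h
    rw [h1, (KF.H25.eh_om e hχ).2 h, zero_mul]

/-- the whole group -/
theorem gv_one (e : G → FF M) (he : IsCl e) (z : G) (χ : G → ℂ) :
    gv M (Cu (1 : G)) z e χ = T8.fv (eh M e) z χ := by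
  classical
  have := Fintype.ofFinite G
  have := Fintype.ofFinite (Cu (1 : G))
  have htop : Cu (1 : G) = ⊤ := by
    rw [eq_top_iff]
    intro x _
    rw [Subgroup.mem_centralizer_singleton_iff]
    simp
  obtain ⟨φ, hφ⟩ : ∃ φ : Cu (1 : G) ≃* G, ∀ t : Cu (1 : G), φ t = (t : G) :=
    ⟨(MulEquiv.subgroupCongr htop).trans Subgroup.topEquiv, fun t => rfl⟩
  have hb : IsCl (fun t : Cu (1 : G) => e t) := fun x y => he x y
  unfold gv gbv T8.fv
  rw [finsum_eq_sum_of_fintype, finsum_eq_sum_of_fintype, ← Equiv.sum_comp φ.toEquiv]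
  refine Finset.sum_congr rfl fun t _ => ?_
  have h1 := T3.H62.eh_equiv φ hb t
  have h2 : (fun y => (fun t : Cu (1 : G) => e t) (φ.symm y)) = e := by
    funext y
    have h3 := hφ (φ.symm y)
    rw [MulEquiv.apply_symm_apply] at h3
    exact congrArg e h3.symm
  rw [h2] at h1
  have h4 : φ.toEquiv t = (t : G) := hφ t
  rw [← h1, h4, hφ t]

theorem gbv_add {C : Subgroup G} (z : G) (p r : C → ℂ) (χ : G → ℂ) :
    gbv C z (p + r) χ = gbv C z p χ + gbv C z r χ := by
  have := Fintype.ofFinite C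
  unfold gbv
  rw [finsum_eq_sum_of_fintype, finsum_eq_sum_of_fintype, finsum_eq_sum_of_fintype,
    ← Finset.sum_add_distrib]
  refine Finset.sum_congr rfl fun t _ => ?_
  rw [Pi.add_apply, add_mul]

theorem gbv_one {C : Subgroup G} (z : G) (χ : G → ℂ) :
    gbv C z (dl ℂ (1 : C)) χ = χ z := by
  classical
  have := Fintype.ofFinite C
  unfold gbv
  rw [finsum_eq_sum_of_fintype, Finset.sum_eq_single (1 : C)]
  · unfold dl
    rw [if_pos rfl, one_mul, Subgroup.coe_one, mul_one]
  · intro t _ ht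
    unfold dl
    rw [if_neg ht, zero_mul]
  · intro h
    exact absurd (Finset.mem_univ _) h

end base

/-- SMH: the second main theorem for class functions. -/
theorem smh (smg : T3.SmgStmt) : SmhStmt := by
  intro ℓ hℓ M _ hM G _ _ e he x hx s hs hsr θ hθ
  classical
  have := Fintype.ofFinite G
  have := Fintype.ofFinite (Cu x)
  have key : ∀ χ ∈ Irr G, T8.fv (eh M e) (x * s) χ = gv M (Cu x) (x * s) e χ := by
    intro χ hχ
    by_cases hx1 : x = 1
    · subst hx1
      rw [gv_one e he.1]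
    · have hF : GoodF ℓ (FF M) := H50.fld ℓ Fact.out M hM
      have hid : IsIdem (fun t : Cu x => e t) := T3.H98.idem_cu hF he hx
      set E : Cu x → FF M := fun t => e t with hE
      set E' : Cu x → FF M := dl (FF M) (1 : Cu x) - E with hE'
      have hone : ∀ a : Cu x → FF M, mulF a (dl (FF M) (1 : Cu x)) = a := by
        intro a
        rw [← H20.mulF_comm_of_cl dl_cl, dl_one_mulF]
      have hid' : IsIdem E' := by
        refine ⟨H20.isCl_sub dl_cl hid.1, ?_⟩
        rw [hE', H20.mulF_sub, hone, H20.sub_mulF, dl_one_mulF, hid.2, sub_self, sub_zero]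
      have hEE : mulF E E' = 0 := by
        rw [hE', H20.mulF_sub, hone, hid.2, sub_self]
      have hsum : eh M E + eh M E' = dl ℂ (1 : Cu x) := by
        rw [← T3.H98.eh_add hid hid' hEE, hE', add_sub_cancel, T3.H98.eh_one]
      have h1 : gbv (Cu x) (x * s) (eh M E) χ + gbv (Cu x) (x * s) (eh M E') χ = χ (x * s) := by
        rw [← gbv_add, hsum, gbv_one]
      have h2 : gv M (Cu x) (x * s) e χ = gbv (Cu x) (x * s) (eh M E) χ := rfl
      rw [h2]
      by_cases hin : χ ∈ IrrE M e
      · rw [(fv_eh e hχ _).1 hin, ← h1,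
          (smg ℓ M hM G x s hx1 hx hs hsr E' hid' e he).2 hEE χ hin, add_zero]
      · rw [(fv_eh e hχ _).2 hin,
          (smg ℓ M hM G x s hx1 hx hs hsr E hid e he).1 hid.2 χ hχ hin]
  have hspan := T3.H98.span_irr hθ
  have hfv : ∀ f : G → ℂ, T8.fv (eh M e) (x * s) f = ∑ t, eh M e t * f (x * s * t) := fun f =>
    finsum_eq_sum_of_fintype _
  have hgv : ∀ f : G → ℂ, gv M (Cu x) (x * s) e f =
      ∑ t : Cu x, eh M (fun t : Cu x => e t) t * f (x * s * t) := fun f =>
    finsum_eq_sum_of_fintype _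
  clear hθ
  induction hspan using Submodule.span_induction with
  | mem χ hχ => exact key χ hχ
  | zero =>
    rw [hfv, hgv, Finset.sum_eq_zero, Finset.sum_eq_zero]
    · intro t _
      rw [Pi.zero_apply, mul_zero]
    · intro t _
      rw [Pi.zero_apply, mul_zero]
  | add f g _ _ h1 h2 =>
    rw [hfv, hgv] at h1 h2 ⊢
    simp only [Pi.add_apply, mul_add, Finset.sum_add_distrib]
    rw [h1, h2]
  | smul a f _ h1 =>
    rw [hfv, hgv] at h1 ⊢
    have e1 : ∀ u v : ℂ, u * (a * v) = a * (u * v) := fun u v => by ring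
    simp only [Pi.smul_apply, smul_eq_mul, e1]
    rw [← Finset.mul_sum, ← Finset.mul_sum, h1]

end Pool.Agent.PP.T6.H16
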